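import Pool.Agent.Odp3.Eq.Defs
import Pool.Agent.Odp3.Eq.LemZ
import Pool.Agent.Odp3.An.Taylor
import Pool.Agent.Odp3.Lim.IdealAux
import Pool.Agent.ODP.Node
import Pool.Agent.ODP.Indep

/-!
# A singular point is on at least two sheets
-/

open scoped ContDiff Topology ENNReal NNReal WithZero
open Set MeasureTheory Filter MvPolynomial Pool.Agent.ODP

namespace Pool.Agent.Odp3

theorem ptSurj {B : Type} [CommRing B] [Algebra ℂ B] (x : Pt B) : Function.Surjective x :=
  fun c => ⟨algebraMap ℂ B c, x.commutes c⟩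

theorem ptKer_isMaximal {B : Type} [CommRing B] [Algebra ℂ B] (x : Pt B) :
    (RingHom.ker x).IsMaximal := RingHom.ker_isMaximal_of_surjective _ (ptSurj x)

/-- If every function vanishing at `x` is in `(y)` near `x`, then `x` is a regular point. -/
theorem not_singular {n : ℕ} {B : Type} [CommRing B] [IsDomain B] [IsIntegrallyClosed B]
    [Algebra ℂ B] (y : Fin n → B) (x : Pt B) (hx : proj y x = 0)
    (hsing : n < embDim (RingHom.ker x))
    (hall : ∀ f, x f = 0 → ∃ t, x t ≠ 0 ∧ t * f ∈ Ideal.span (Set.range y)) : False := by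
  have hmax := ptKer_isMaximal x
  have hyx : ∀ i, y i ∈ RingHom.ker x := fun i => congrFun hx i
  refine paramIdeal_ne_maximal y (RingHom.ker x) hsing
    (le_antisymm (paramIdeal_le (RingHom.ker x) y hyx) ?_)
  rw [← Localization.AtPrime.map_eq_maximalIdeal, Ideal.map_le_iff_le_comap]
  intro f hf
  obtain ⟨t, ht, htf⟩ := hall f hf
  have hu : IsUnit (algebraMap B (Localization.AtPrime (RingHom.ker x)) t) :=
    IsLocalization.map_units _ (⟨t, ht⟩ : (RingHom.ker x).primeCompl)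
  change algebraMap B _ f ∈ paramIdeal (RingHom.ker x) y
  rw [← Ideal.unit_mul_mem_iff_mem _ hu, ← map_mul]
  exact Ideal.mem_map_of_mem _ htf

/-- the Taylor expansion of a holomorphic function -/
theorem exists_taylor_ball {n : ℕ} (K : ℕ) {ρ : ℝ} (hρ : 0 < ρ) {f : (Fin n → ℂ) → ℂ}
    (hf : DifferentiableOn ℂ f (bal n ρ)) : ∃ (p : MvPolynomial (Fin n) ℂ) (C ρ' : ℝ),
      0 < ρ' ∧ ρ' ≤ ρ ∧ ∀ w, nq w < ρ' ^ 2 → ‖f w - eval w p‖ ≤ C * √(nq w) ^ K := by
  have hcont : Continuous (fun w : Fin n → ℂ => nq w) := by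
    unfold nq
    fun_prop
  have hsub : {w : Fin n → ℂ | nq w ≤ (ρ / 2) ^ 2} ⊆ bal n ρ := by
    intro w (hw : nq w ≤ (ρ / 2) ^ 2)
    change nq w < ρ ^ 2
    nlinarith
  have hcomp : IsCompact {w : Fin n → ℂ | nq w ≤ (ρ / 2) ^ 2} := by
    refine Metric.isCompact_of_isClosed_isBounded (isClosed_le hcont continuous_const) ?_
    refine (Metric.isBounded_closedBall (x := (0 : Fin n → ℂ)) (r := ρ / 2)).subset
      fun w hw => ?_
    rw [mem_closedBall_zero_iff]
    refine (tay_norm_le_sqrt w).trans ?_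
    rw [Real.sqrt_le_left (by positivity)]
    exact hw
  obtain ⟨t, ht⟩ := hcomp.exists_bound_of_continuousOn (hf.continuousOn.mono hsub)
  obtain ⟨C, -, h⟩ := tay_bal n K (show 0 < ρ / 2 by positivity)
  obtain ⟨-, h2⟩ := h f t (hf.mono fun w hw => hsub (show nq w ≤ (ρ / 2) ^ 2 from le_of_lt hw))
    fun w hw => ht w (show nq w ≤ (ρ / 2) ^ 2 from le_of_lt hw)
  exact ⟨_, _, ρ / 2, by positivity, by linarith, h2⟩

/-- A singular point is on at least two sheets. -/
theorem two_le_num {n d : ℕ} {B : Type} [CommRing B] [IsDomain B] [IsIntegrallyClosed B]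
    [Algebra ℂ B] {G : Germ n d B} {x : Pt B} {sg : B} {m : ℕ} (hm : 1 ≤ m)
    (hsg : IsSep G x m sg) {e : ℕ} (he : IsNum G sg e)
    (hsym : ∃ ρ₂ : ℝ, 0 < ρ₂ ∧ ∀ ρ : ℝ, 0 < ρ → ρ ≤ ρ₂ →
      ∀ g : B, ∃ σ : ℕ → (Fin n → ℂ) → ℂ, IsSym G sg e ρ g σ)
    (hsing : n < embDim (RingHom.ker x)) : 2 ≤ e := by
  obtain ⟨c₁, hZ⟩ := lemZ hm hsg
  obtain ⟨ρ₂, hρ₂, hsym⟩ := hsym
  have hyx : Ideal.span (Set.range G.y) ≤ RingHom.ker x := by
    rw [Ideal.span_le]
    rintro _ ⟨i, rfl⟩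
    exact congrFun hsg.x_y i
  by_contra hcon
  have he' : e = 0 ∨ e = 1 := by omega
  rcases he' with rfl | rfl
  · -- there are no sheets near `x`
    obtain ⟨ρ₀, hρ₀, h0⟩ := he
    obtain ⟨t, ht, ht1⟩ := hZ 1 1 ⟨0, ρ₀, hρ₀, fun χ hχ hD => by
      exfalso
      have h1 := h0 (proj G.y χ) hχ.1 hD
      have hfin : {χ' : Pt B | proj G.y χ' = proj G.y χ ∧ ‖χ' sg - 1‖ < 1 / 2}.Finite :=
        (fibre_finite G hD).subset fun χ' h => h.1
      rw [Set.ncard_eq_zero hfin] at h1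
      have h2 : χ ∈ {χ' : Pt B | proj G.y χ' = proj G.y χ ∧ ‖χ' sg - 1‖ < 1 / 2} :=
        ⟨rfl, hχ.2⟩
      rw [h1] at h2
      exact h2⟩
    rw [mul_one, pow_one] at ht1
    exact ht (hyx ht1)
  · refine not_singular G.y x hsg.x_y hsing fun f hf => ?_
    obtain ⟨σ, hσ⟩ := hsym ρ₂ hρ₂ le_rfl f
    obtain ⟨q, C, ρ', hρ', hle, hq⟩ := exists_taylor_ball (1 + c₁) hρ₂ (hσ.holo 1)
    have hval : ∀ χ ∈ UU G sg ρ', eval (proj G.y χ) G.D ≠ 0 → χ f = σ 1 (proj G.y χ) := by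
      intro χ hχ hD
      have hb : proj G.y χ ∈ bal n ρ₂ := by
        refine lt_of_lt_of_le hχ.1 ?_
        gcongr
      obtain ⟨r, -, -, hall, hr⟩ := hσ.spec _ hb hD
      obtain ⟨j, rfl⟩ := hall χ ⟨hb, hχ.2⟩ rfl
      have h0 := hσ.zero _ hb
      rw [Finset.sum_range_succ, Finset.sum_range_one] at hr
      have h1 := congrArg (Polynomial.eval 0) hr
      simp only [Finset.univ_unique, Finset.prod_singleton, Polynomial.eval_sub,
        Polynomial.eval_X, Polynomial.eval_C, Polynomial.eval_add, Polynomial.eval_mul,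
        Polynomial.eval_pow] at h1
      have hj : j = default := Subsingleton.elim _ _
      rw [hj] at h1 ⊢
      simpa using h1
    obtain ⟨t, ht, htf⟩ := hZ 1 (f - aeval G.y q) ⟨C, ρ', hρ', fun χ hχ hD => by
      rw [map_sub, apply_aeval, hval χ hχ hD]
      exact hq _ hχ.1⟩
    rw [pow_one] at htf
    have hq0 : eval 0 q = 0 := by
      have h1 : x (t * (f - aeval G.y q)) = 0 := hyx htf
      rw [map_mul, map_sub, hf, apply_aeval, hsg.x_y, zero_sub] at h1
      exact neg_eq_zero.1 ((mul_eq_zero.1 h1).resolve_left ht)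
    have hqy : aeval G.y q ∈ Ideal.span (Set.range G.y) := by
      have h1 := aeval_mem_PP G (χ := x) (P := q) (by rw [hsg.x_y]; exact hq0)
      have h2 : PP G x ≤ Ideal.span (Set.range G.y) := by
        rw [PP, Ideal.span_le]
        rintro _ ⟨j, rfl⟩
        have h3 : x (G.y j) = 0 := congrFun hsg.x_y j
        simp only [h3, map_zero, sub_zero]
        exact Ideal.subset_span ⟨j, rfl⟩
      exact h2 h1
    refine ⟨t, ht, ?_⟩
    have h4 : t * f = t * (f - aeval G.y q) + t * aeval G.y q := by ring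
    rw [h4]
    exact Ideal.add_mem _ htf (Ideal.mul_mem_left _ _ hqy)

end Pool.Agent.Odp3
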