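import Pool.Agent.Odp3.Horm.Defs
import Pool.Agent.Odp3.Main.Defs
import Pool.Agent.Odp3.Main.MAux4
import Pool.Agent.Odp3.Main.MAuxA
import Pool.Agent.Odp3.Horm.Approx
import Pool.Agent.Odp3.Horm.Cut
import Pool.Agent.Odp3.An.Ext
import Pool.Agent.Odp3.Lim.Eval
import Pool.Agent.Odp3.Lim.Van
import Pool.Agent.Odp3.Lim.Unif
import Pool.Agent.Odp3.An.Pole

open scoped ContDiff Topology ENNReal NNReal WithZero
open Set MeasureTheory Filter MvPolynomial Pool.Agent.ODP Pool.Agent.ToricKRF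
  Pool.Agent.ToricKRF.G Pool.Agent.KRFS Pool.Agent.KRFQ

namespace Pool.Agent.Odp3

/-- In the zero-dimensional case `B = ℂ`. -/
theorem maux_zero {d : ℕ} {B : Type} [CommRing B] [IsDomain B] [Algebra ℂ B] (G : Germ 0 d B)
    {x : Pt B} {z : B} (hz : x z = 0) : z = 0 := by
  classical
  have hD := MvPolynomial.eq_C_of_isEmpty G.D
  set d₀ := coeff 0 G.D with hd₀
  have hd : d₀ ≠ 0 := by
    intro h0
    apply G.D_ne
    rw [hD, h0, C_0]
  have hfin : Module.Finite ℂ B := by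
    refine ⟨⟨Finset.univ.image G.e, ?_⟩⟩
    rw [eq_top_iff]
    intro b _
    have h1 := G.spec b
    rw [hD, aeval_C] at h1
    have h2 : b = algebraMap ℂ B d₀⁻¹ * (algebraMap ℂ B d₀ * b) := by
      rw [← mul_assoc, ← map_mul, inv_mul_cancel₀ hd, map_one, one_mul]
    rw [h2, h1, Finset.mul_sum]
    refine Submodule.sum_mem _ fun i _ => ?_
    rw [MvPolynomial.eq_C_of_isEmpty (G.tr (G.du i * b)), aeval_C, ← mul_assoc, ← map_mul,
      ← Algebra.smul_def]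
    exact Submodule.smul_mem _ _ (Submodule.subset_span (by simp))
  have hs : Function.Bijective (algebraMap ℂ B) :=
    IsAlgClosed.algebraMap_bijective_of_isIntegral
  obtain ⟨c, rfl⟩ := hs.2 z
  rw [AlgHom.commutes] at hz
  have h1 : c = 0 := hz
  rw [h1, map_zero]

/-- a combination with convergent coefficients -/
theorem maux_tends {n d : ℕ} {B : Type} [CommRing B] [Algebra ℂ B] (G : Germ n d B) {k : ℕ}
    (g : Fin k → B) (c : ℕ → Fin k → ℂ) (c' : Fin k → ℂ)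
    (hc : ∀ i, Tendsto (fun ν => c ν i) (hyperfilter ℕ : Filter ℕ) (𝓝 (c' i))) :
    TendsB G (fun ν => ∑ i, algebraMap ℂ B (c ν i) * g i) (∑ i, algebraMap ℂ B (c' i) * g i) :=
  ⟨k, g, c, c', Eventually.of_forall fun _ => rfl, hc, rfl⟩

theorem maux_small {X D c t ε : ℝ} {K : ℕ} (hD : 0 < D) (hc : 0 < c) (ht : 0 ≤ t) (hX : 0 ≤ X)
    (hε : 0 ≤ ε) (hlow : c * t ^ K ≤ D) (h : X * D ≤ ε * t ^ (2 * K + 1)) :
    X / D ≤ ε / c ^ 2 * t := by
  rcases ht.eq_or_lt with h0 | h0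
  · rw [← h0, zero_pow (by omega), mul_zero] at h
    have : X = 0 := by
      by_contra hne
      have : 0 < X := lt_of_le_of_ne hX (Ne.symm hne)
      have := mul_pos this hD
      linarith
    rw [this, zero_div, ← h0, mul_zero]
  · have h1 : 0 < c * t ^ K := by positivity
    have h2 : X ≤ ε * t ^ (2 * K + 1) / D := by rwa [le_div_iff₀ hD]
    calc X / D ≤ ε * t ^ (2 * K + 1) / D / D := by gcongr
      _ = ε * t ^ (2 * K + 1) / D ^ 2 := by rw [div_div, ← pow_two]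
      _ ≤ ε * t ^ (2 * K + 1) / (c * t ^ K) ^ 2 := by gcongr
      _ = _ := by
          field_simp
          ring

/-- Theorem M. -/
theorem main_estimate {n d : ℕ} {B : Type} [CommRing B] [IsDomain B] [Algebra ℂ B]
    {G : Germ n d B} {x : Pt B} {sg : B} {m : ℕ} (hm : 1 ≤ m)
    (hsg : IsSep G x m sg) {h : B} {s ρ₁ : ℝ} (hM : IsMeas G x h s sg ρ₁) (p : Pts G x)
    {a : Fin n → ℕ} (ha : ∀ j, 1 ≤ a j) {N : ℕ} (hN : 1 ≤ N) {β : ℝ} (hβ : 0 ≤ β) {z : B}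
    (hz : x z = 0) (hz1 : z ∉ JI p (one n) 1)
    (hzβ : ∀ (L : ℕ) (f : Fin L → B), Ideal.span (range f) = JI p a N → ∃ C ρ : ℝ, 0 < ρ ∧
      ∀ χ ∈ UU G sg ρ, (‖χ z‖ ^ 2) ^ (N : ℝ) ≤ C * (∑ l, ‖χ (f l)‖ ^ 2) ^ β)
    {c : ℝ} (hc0 : 0 ≤ c) (hc : ((∑ j, a j : ℕ) : ℝ) - β < c * N) (Gen : Finset B)
    (hG : Ideal.span (Gen : Set B) = JI p a N) :
    ¬ NearInt G.y h s x fun χ => sq Gen χ ^ (-c) := by
  have _ := hβ
  haveI := hM.normal
  intro hNI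
  apply hz1
  rcases Nat.eq_zero_or_pos n with hn0 | hn
  · subst hn0
    rw [maux_zero G hz]
    exact Ideal.zero_mem _
  obtain ⟨L, f, F, hspan, hmono, hvan, hclose⟩ := JI_gens p ha N
  have hN0 : (0:ℝ) < N := by exact_mod_cast hN
  set A : ℝ := ((∑ j, a j : ℕ) : ℝ) / N with hA
  have hA0 : 0 ≤ A := by positivity
  have hAN : ((∑ j, a j : ℕ) : ℝ) ≤ A * N := by rw [hA, div_mul_cancel₀ _ hN0.ne']
  have hAc : A - β / N < c := by
    rw [hA, ← sub_div, div_lt_iff₀ hN0]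
    exact hc
  have hf : ∀ l, x (f l) = 0 := fun l =>
    JI_le_ker p hN (hspan ▸ Ideal.subset_span (s := range f) ⟨l, rfl⟩)
  obtain ⟨δ, ρs, K, hδ, hρs, hK, hshell⟩ :=
    maux_shell hsg hn hN hf hmono hA0 hAc (hzβ L f hspan)
  obtain ⟨ρc, C₀, hρc, hC₀, hcut⟩ := cut_solve hm hsg
  obtain ⟨Kl, cl, hcl, hlow⟩ := p.low
  obtain ⟨kg, g, ρe, hρe, happ⟩ := approx hm hsg (ϖ := fun χ => ‖χ h‖ₑ ^ (-(2 * s))) hM.pos
    hM.om (2 * Kl + 1)
  obtain ⟨ρn, hρn, hnear⟩ := mauxA_near hm hsg hM.s_nonneg hc0 Gen f (hG.trans hspan.symm) hNI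
  obtain ⟨κ, hκ, hwt⟩ := maux_wt_low G f hA0 hδ.le
  obtain ⟨ρ, hρ, hρ1, hρs', hρc', hρe', hρn', hρm'⟩ : ∃ ρ : ℝ, 0 < ρ ∧ ρ ≤ 1 ∧ ρ ≤ ρs ∧
      ρ ≤ ρc ∧ ρ ≤ ρe ∧ ρ ≤ ρn ∧ ρ ≤ ρ₁ := by
    refine ⟨min 1 (min ρs (min ρc (min ρe (min ρn ρ₁)))), ?_, ?_, ?_, ?_, ?_, ?_, ?_⟩
    · have := hM.pos
      positivity
    all_goals simp
  have hisQ := maux_isQ G hρ
  have hUU : ∀ ρ' : ℝ, ρ ≤ ρ' → ∀ χ ∈ VV G sg (fun w => eval w G.D) ρ, χ ∈ UU G sg ρ' :=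
    fun ρ' hle χ hχ => ⟨hχ.1.trans_le (by gcongr), hχ.2.2⟩
  have hh : ∀ χ ∈ VV G sg (fun w => eval w G.D) ρ, χ h ≠ 0 := fun χ hχ => hM.h_ne χ hχ.2.1
  have hmfin : sumI G (VV G sg (fun w => eval w G.D) ρ) (fun χ => ‖χ h‖ₑ ^ (-(2 * s))) ≠ ⊤ :=
    ne_top_of_le_ne_top hM.fin (sumI_mono G (hUU ρ₁ hρm') _)
  have hmfin' : sumI G (VV G sg (fun w => eval w G.D) ρ)
      (fun χ => ENNReal.ofReal (‖χ h‖ ^ (-(2 * s)))) ≠ ⊤ := by
    rw [cut_sumI_congr (F' := fun χ => ‖χ h‖ₑ ^ (-(2 * s)))]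
    · exact hmfin
    · intro χ hχ
      rw [← ENNReal.ofReal_rpow_of_pos (norm_pos_iff.2 (hh χ hχ)), ofReal_norm]
  obtain ⟨C', hC'⟩ := happ ρ (fun w => eval w G.D) hρe' hisQ (ρ / 2) (by positivity)
    (by linarith)
  -- the function `z`
  have hzhol : HolV G (VV G sg (fun w => eval w G.D) ρ) (fun χ => χ z) := fun Ω S hS => hS.holo z
  have hzfin : sumI G (VV G sg (fun w => eval w G.D) ρ)
      (fun χ => ‖χ z‖ₑ ^ 2 * ‖χ h‖ₑ ^ (-(2 * s))) ≠ ⊤ := by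
    obtain ⟨Cz, hCz⟩ := G.bdd z 1
    refine ne_top_of_le_ne_top (ENNReal.mul_ne_top (a := ENNReal.ofReal Cz ^ 2)
      (by simp) hmfin) (cut_sumI_le (by simp) fun χ hχ => Or.inl ⟨hχ, ?_⟩)
    have h1 : nq (proj G.y χ) ≤ 1 := hχ.1.le.trans (by
      have : ρ ^ 2 ≤ 1 ^ 2 := by gcongr
      linarith)
    have h2 : ‖χ z‖ₑ ≤ ENNReal.ofReal Cz := by
      rw [← ofReal_norm]
      exact ENNReal.ofReal_le_ofReal (hCz χ h1)
    gcongr
  refine maux_le_one p ha ?_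
  refine maux_closed (JI p a 1) g z fun ε hε => ?_
  have hnearV : sumI G (VV G sg (fun w => eval w G.D) ρ) (fun χ =>
      (∑ l, ‖χ (f l)‖ₑ ^ 2) ^ (-c) * ‖χ h‖ₑ ^ (-(2 * s))) ≠ ⊤ :=
    ne_top_of_le_ne_top hnear (sumI_mono G (hUU ρn hρn') _)
  -- the choice of `r`
  obtain ⟨τ, hτ, hτtop, hτ'⟩ : ∃ τ : ℝ≥0∞, 0 < τ ∧ τ ≠ ⊤ ∧ C' * (2 * ENNReal.ofReal κ⁻¹ *
      (ENNReal.ofReal (C₀ / δ) * (ENNReal.ofReal K * τ)) + 2 * τ) ≤
      ENNReal.ofReal (ε ^ 2) := by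
    set T : ℝ≥0∞ := C' * (2 * ENNReal.ofReal κ⁻¹ *
      (ENNReal.ofReal (C₀ / δ) * ENNReal.ofReal K) + 2) with hT
    have hTtop : T + 1 ≠ ⊤ := by
      refine ENNReal.add_ne_top.2 ⟨?_, by norm_num⟩
      rw [hT]
      refine ENNReal.mul_ne_top ENNReal.coe_ne_top (ENNReal.add_ne_top.2 ⟨?_, by norm_num⟩)
      exact ENNReal.mul_ne_top (ENNReal.mul_ne_top (by norm_num) ENNReal.ofReal_ne_top)
        (ENNReal.mul_ne_top ENNReal.ofReal_ne_top ENNReal.ofReal_ne_top)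
    refine ⟨ENNReal.ofReal (ε ^ 2) / (T + 1), ENNReal.div_pos ?_ hTtop,
      ENNReal.div_ne_top ENNReal.ofReal_ne_top (by simp), ?_⟩
    · simp only [ne_eq, ENNReal.ofReal_eq_zero, not_le]
      positivity
    · calc C' * (2 * ENNReal.ofReal κ⁻¹ * (ENNReal.ofReal (C₀ / δ) * (ENNReal.ofReal K *
            (ENNReal.ofReal (ε ^ 2) / (T + 1)))) + 2 * (ENNReal.ofReal (ε ^ 2) / (T + 1)))
          = T * (ENNReal.ofReal (ε ^ 2) / (T + 1)) := by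
            rw [hT]
            ring
        _ ≤ (T + 1) * (ENNReal.ofReal (ε ^ 2) / (T + 1)) := by
            gcongr
            exact le_self_add
        _ ≤ _ := ENNReal.mul_div_le
  obtain ⟨r₁, hr₁, hsm₁⟩ := mauxA_small hn G _ _ hnearV hτ
  obtain ⟨r₂, hr₂, hsm₂⟩ := mauxA_small hn G _ _ hzfin hτ
  obtain ⟨r, hr, hrρ, hrr₁, hrr₂⟩ : ∃ r : ℝ, 0 < r ∧ r ≤ ρ / 2 ∧ r ≤ r₁ ∧ r ≤ r₂ := by
    refine ⟨min (ρ / 2) (min r₁ r₂), by positivity, ?_, ?_, ?_⟩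
    all_goals simp
  have hI1 := hsm₁ r hr hrr₁
  have hI2 := hsm₂ r hr hrr₂
  obtain ⟨ε₁, hε₁, hε₁1, hcl'⟩ := maux_close hn hN hmono hr
  set M : ℝ≥0∞ := ENNReal.ofReal (C₀ / δ) * (ENNReal.ofReal K * τ) with hMdef
  have hMtop : M ≠ ⊤ := ENNReal.mul_ne_top ENNReal.ofReal_ne_top
    (ENNReal.mul_ne_top ENNReal.ofReal_ne_top hτtop)
  -- the eventual properties
  have hqt := pts_tendsto_q_hyper p
  have hnq0 : nq (0 : Fin n → ℂ) = 0 := by simp [nq]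
  have hqt' : Tendsto (fun ν => nq (p.q ν)) (hyperfilter ℕ : Filter ℕ) (𝓝 0) := by
    have h1 := (maux_cont_nq.tendsto (0 : Fin n → ℂ)).comp hqt
    rwa [hnq0] at h1
  have e1 : ∀ᶠ ν in (hyperfilter ℕ : Filter ℕ), nq (p.q ν) < r ^ 2 :=
    hqt'.eventually_lt_const (by positivity)
  have e2 : ∀ᶠ ν in (hyperfilter ℕ : Filter ℕ), ∀ i, ‖p.p i ν sg - 1‖ < 1 / 2 := by
    rw [eventually_all]
    intro i
    have h1 := ((pts_tendsto_hyper p i sg).sub_const 1).norm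
    rw [hsg.x_sg, sub_self, norm_zero] at h1
    exact h1.eventually_lt_const (by norm_num)
  have e3 := hclose 1 ε₁ hε₁
  have key : ∀ᶠ ν in (hyperfilter ℕ : Filter ℕ), ∃ u : Fin kg → ℂ,
      (∀ j, ‖u j‖ ≤ ε) ∧ ∀ i, ‖p.p i ν (z + ∑ j, algebraMap ℂ B (u j) * g j) /
        eval (p.q ν) G.D‖ ≤ 1 / ((ν : ℝ) + 1) + ε / cl ^ 2 * √(nq (p.q ν)) := by
    filter_upwards [e1, e2, e3, hvan] with ν h1 h2 h3 h4
    have hD0 : 0 < ‖eval (p.q ν) G.D‖ := norm_pos_iff.2 (p.D_ne ν)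
    have hP : ∀ i, p.p i ν ∈ VV G sg (fun w => eval w G.D) ρ := by
      intro i
      refine ⟨?_, ?_, h2 i⟩
      · rw [p.proj_p]
        refine h1.trans_le ?_
        have : r ≤ ρ := by linarith
        gcongr
      · rw [p.proj_p]
        exact p.D_ne ν
    have hq1 : ∀ χ ∈ VV G sg (fun w => eval w G.D) ρ, nq (proj G.y χ) ≤ 1 := fun χ hχ =>
      hχ.1.le.trans (by
        have : ρ ^ 2 ≤ 1 ^ 2 := by gcongr
        linarith)
    have hcut1 : ∀ η : ℝ, 0 < η → η ≤ 1 → ∃ Z : Pt B → ℂ,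
        HolV G (VV G sg (fun w => eval w G.D) ρ) Z ∧
        sumI G (VV G sg (fun w => eval w G.D) ρ)
          (fun χ => ENNReal.ofReal (‖Z χ‖ ^ 2 * wt G (fun l => F l ν) h η A r δ s χ)) ≠ ⊤ ∧
        sumI G (VV G sg (fun w => eval w G.D) ρ) (fun χ => ENNReal.ofReal
          (‖(cutf (nq (proj G.y χ) / r ^ 2) : ℂ) * χ z - Z χ‖ ^ 2 *
            wt G (fun l => F l ν) h η A r δ s χ)) ≤ M := by
      intro η hη hη1
      obtain ⟨Z, hZ1, hZ2, hZ3⟩ := hcut ρ (fun w => eval w G.D) hρc' hisQ h hh s hM.s_nonneg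
        hmfin' L (fun l => F l ν) η A r δ hη hA0 hr hδ z
      refine ⟨Z, hZ1, hZ2, hZ3.trans ?_⟩
      rw [hMdef]
      gcongr
      refine (cut_sumI_le (G := G) (S' := {χ | χ ∈ VV G sg (fun w => eval w G.D) ρ ∧
        nq (proj G.y χ) ≤ 4 * r ^ 2}) (F' := fun χ => (∑ l, ‖χ (f l)‖ₑ ^ 2) ^ (-c) *
        ‖χ h‖ₑ ^ (-(2 * s))) (c := ENNReal.ofReal K) ENNReal.ofReal_ne_top
        fun χ hχ => Or.inl ⟨⟨hχ.1, hχ.2.2⟩, ?_⟩).trans (by gcongr)
      have h5 := hshell h s χ (hUU ρs hρs' χ hχ.1) r hr hχ.2.1 (fun l => F l ν) η hη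
        (hcl' χ _ hχ.2.1 fun l => h3 l χ (hq1 χ hχ.1))
      have h6 : 0 < ∑ l, ‖χ (f l)‖ ^ 2 := by
        have h7 := maux_low hN hmono χ
        have h8 : 0 < nq (proj G.y χ) ^ N :=
          pow_pos ((by positivity : 0 < r ^ 2).trans_le hχ.2.1) _
        have h9 : (0:ℝ) < (n : ℝ) ^ N := by
          have : (0:ℝ) < n := by exact_mod_cast hn
          positivity
        by_contra! hcon
        nlinarith
      have h7 : ∑ l, ‖χ (f l)‖ₑ ^ 2 = ENNReal.ofReal (∑ l, ‖χ (f l)‖ ^ 2) := by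
        rw [ENNReal.ofReal_sum_of_nonneg fun l _ => by positivity]
        refine Finset.sum_congr rfl fun l _ => ?_
        rw [ENNReal.ofReal_pow (norm_nonneg _), ofReal_norm]
      rw [h7, ENNReal.ofReal_rpow_of_pos h6, ← ofReal_norm (χ h),
        ENNReal.ofReal_rpow_of_pos (norm_pos_iff.2 (hh χ hχ.1)),
        ← ENNReal.ofReal_mul (by positivity), ← ENNReal.ofReal_mul hK]
      exact ENNReal.ofReal_le_ofReal h5
    have hwt1 : ∀ η : ℝ, 0 < η → η ≤ 1 → ∀ χ ∈ VV G sg (fun w => eval w G.D) ρ,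
        κ * ‖χ h‖ ^ (-(2 * s)) ≤ wt G (fun l => F l ν) h η A r δ s χ := by
      intro η hη hη1 χ hχ
      exact hwt h s r η _ χ hr (by linarith) hη hη1 (hq1 χ hχ)
        fun l => (h3 l χ (hq1 χ hχ)).trans hε₁1
    obtain ⟨Z, hZ1, hZ2, hZ3, hZ4⟩ := maux_nu (A := A) (δ := δ) (κ := κ)
      (F := fun l => F l ν) (M := M) (c' := ‖eval (p.q ν) G.D‖ * (1 / ((ν : ℝ) + 1)))
      hn ha hN hA0 hAN hδ hM.s_nonneg hr hκ hh (fun i => p.proj_p i ν) hP h1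
      h4 hMtop hcut1 hwt1 (mauxA_aemeas G sg z h s ρ) (ne_top_of_le_ne_top hτtop hI2)
      (by positivity)
    have hle : C' * sumI G (VV G sg (fun w => eval w G.D) ρ)
        (fun χ => ‖Z χ - χ z‖ₑ ^ 2 * ‖χ h‖ₑ ^ (-(2 * s))) ≤ ENNReal.ofReal (ε ^ 2) := by
      refine le_trans ?_ hτ'
      gcongr
      refine hZ4.trans ?_
      gcongr
    obtain ⟨u, hu1, hu2⟩ := hC' (fun χ => Z χ - χ z)
      (fun Ω S hS => (hZ1 Ω S hS).sub (hS.holo z)) hZ3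
    refine ⟨u, fun j => ?_, fun i => ?_⟩
    · have h5 := (hu1 j).trans hle
      rw [← ofReal_norm, ← ENNReal.ofReal_pow (norm_nonneg _),
        ENNReal.ofReal_le_ofReal_iff (by positivity)] at h5
      exact le_of_sq_le_sq h5 hε.le
    · have hsq : (√(nq (p.q ν)) ^ (2 * Kl + 1)) ^ 2 = nq (p.q ν) ^ (2 * Kl + 1) := by
        rw [← pow_mul, mul_comm (2 * Kl + 1) 2, pow_mul, Real.sq_sqrt (nq_nonneg _)]
      have h5 := hu2 (p.p i ν) (hP i) (by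
        rw [p.proj_p]
        refine h1.le.trans ?_
        gcongr)
      rw [p.proj_p] at h5
      have h6 : (‖Z (p.p i ν) - p.p i ν z - p.p i ν (∑ j, algebraMap ℂ B (u j) * g j)‖ *
          ‖eval (p.q ν) G.D‖) ^ 2 ≤ (ε * √(nq (p.q ν)) ^ (2 * Kl + 1)) ^ 2 := by
        have h7 : ENNReal.ofReal ((‖Z (p.p i ν) - p.p i ν z -
            p.p i ν (∑ j, algebraMap ℂ B (u j) * g j)‖ * ‖eval (p.q ν) G.D‖) ^ 2) ≤
            ENNReal.ofReal ((ε * √(nq (p.q ν)) ^ (2 * Kl + 1)) ^ 2) := by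
          rw [mul_pow, mul_pow, ENNReal.ofReal_mul (by positivity),
            ENNReal.ofReal_mul (by positivity), ENNReal.ofReal_pow (norm_nonneg _),
            ENNReal.ofReal_pow (norm_nonneg _), ofReal_norm, ofReal_norm, hsq,
            ENNReal.ofReal_pow (nq_nonneg _), mul_comm (_ ^ 2) (‖eval (p.q ν) G.D‖ₑ ^ 2)]
          refine h5.trans ?_
          rw [mul_right_comm]
          gcongr
        rwa [ENNReal.ofReal_le_ofReal_iff (by positivity)] at h7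
      have h8 := le_of_sq_le_sq h6 (by positivity)
      have h9 := maux_small hD0 hcl (Real.sqrt_nonneg _) (norm_nonneg _) hε.le (hlow ν) h8
      have h10 : p.p i ν (z + ∑ j, algebraMap ℂ B (u j) * g j) = Z (p.p i ν) -
          (Z (p.p i ν) - p.p i ν z - p.p i ν (∑ j, algebraMap ℂ B (u j) * g j)) := by
        rw [map_add]
        ring
      rw [h10, norm_div]
      calc ‖Z (p.p i ν) - (Z (p.p i ν) - p.p i ν z -
            p.p i ν (∑ j, algebraMap ℂ B (u j) * g j))‖ / ‖eval (p.q ν) G.D‖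
          ≤ (‖Z (p.p i ν)‖ + ‖Z (p.p i ν) - p.p i ν z -
            p.p i ν (∑ j, algebraMap ℂ B (u j) * g j)‖) / ‖eval (p.q ν) G.D‖ := by
            gcongr
            exact norm_sub_le _ _
        _ = ‖Z (p.p i ν)‖ / ‖eval (p.q ν) G.D‖ + ‖Z (p.p i ν) - p.p i ν z -
            p.p i ν (∑ j, algebraMap ℂ B (u j) * g j)‖ / ‖eval (p.q ν) G.D‖ := add_div _ _ _
        _ ≤ _ := by
            refine add_le_add ?_ h9
            rw [div_le_iff₀ hD0, mul_comm]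
            exact hZ2 i
  rw [Filter.skolem] at key
  obtain ⟨u, hu⟩ := key
  obtain ⟨v', hv'⟩ := maux_limit u ε (hu.mono fun ν h => h.1)
  refine ⟨v', ?_, fun k => ?_⟩
  · -- the limit
    have hT := maux_tends G (Fin.cons z g : Fin (kg + 1) → B)
      (fun ν => (Fin.cons 1 (u ν) : Fin (kg + 1) → ℂ)) (Fin.cons 1 v' : Fin (kg + 1) → ℂ) (by
        intro i
        refine Fin.cases ?_ (fun j => ?_) i
        · simp only [Fin.cons_zero]
          exact tendsto_const_nhds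
        · simp only [Fin.cons_succ]
          exact hv' j)
    simp only [Fin.sum_univ_succ, Fin.cons_zero, Fin.cons_succ, map_one, one_mul] at hT
    refine mem_JI_of_small p ha hT fun i => ?_
    rw [tendsto_zero_iff_norm_tendsto_zero]
    have hb : Tendsto (fun ν : ℕ => 1 / ((ν : ℝ) + 1) + ε / cl ^ 2 * √(nq (p.q ν)))
        (hyperfilter ℕ : Filter ℕ) (𝓝 0) := by
      have h1 : Tendsto (fun ν : ℕ => 1 / ((ν : ℝ) + 1)) (hyperfilter ℕ : Filter ℕ) (𝓝 0) :=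
        (tendsto_one_div_add_atTop_nhds_zero_nat (𝕜 := ℝ)).mono_left Nat.hyperfilter_le_atTop
      have h2 : Tendsto (fun ν : ℕ => √(nq (p.q ν))) (hyperfilter ℕ : Filter ℕ) (𝓝 0) := by
        have := (Real.continuous_sqrt.tendsto 0).comp hqt'
        rwa [Real.sqrt_zero] at this
      simpa using h1.add (h2.const_mul (ε / cl ^ 2))
    refine squeeze_zero' (Eventually.of_forall fun _ => norm_nonneg _)
      (hu.mono fun ν h => h.2 i) hb
  · exact le_of_tendsto (hv' k).norm (hu.mono fun ν h => h.1 k)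

end Pool.Agent.Odp3
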