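import Pool.Agent.Odp3.Main.MAux

/-!
# Auxiliary lemmas for Theorem M: smallness at the two points
-/

open scoped ContDiff Topology ENNReal NNReal WithZero
open Set MeasureTheory Filter MvPolynomial Pool.Agent.ODP Pool.Agent.ToricKRF
  Pool.Agent.ToricKRF.G Pool.Agent.KRFS Pool.Agent.KRFQ

namespace Pool.Agent.Odp3

variable {n d : ℕ} {B : Type} [CommRing B] [Algebra ℂ B]

theorem maux_cont_nq : Continuous (nq : (Fin n → ℂ) → ℝ) := by
  unfold nq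
  fun_prop

/-- the sections through a point of `V` -/
theorem maux_sec (G : Germ n d B) {sg : B} {ρ : ℝ} {P : Pt B}
    (hP : P ∈ VV G sg (fun w => eval w G.D) ρ) :
    ∃ Ω s, IsSec G (VV G sg (fun w => eval w G.D) ρ) Ω s ∧ proj G.y P ∈ Ω ∧
      s (proj G.y P) = P := by
  obtain ⟨Ω, hΩ, hw, s, hs, -, hsurj⟩ := G.exists_sections hP.2.1
  obtain ⟨i, hi⟩ := hsurj _ hw P rfl
  have hc : ContinuousOn (fun w => ‖s i w sg - 1‖) Ω :=
    ((((hs i).holo sg).continuousOn).sub continuousOn_const).norm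
  have ho1 : IsOpen (Ω ∩ {w | ‖s i w sg - 1‖ < 1 / 2}) :=
    hc.isOpen_inter_preimage hΩ isOpen_Iio
  have ho2 : IsOpen {w : Fin n → ℂ | nq w < ρ ^ 2} := isOpen_lt maux_cont_nq continuous_const
  have ho3 : IsOpen {w : Fin n → ℂ | eval w G.D ≠ 0} :=
    isOpen_ne_fun (MvPolynomial.continuous_eval G.D) continuous_const
  refine ⟨(Ω ∩ {w | ‖s i w sg - 1‖ < 1 / 2}) ∩ ({w | nq w < ρ ^ 2} ∩ {w | eval w G.D ≠ 0}), s i,
    ⟨ho1.inter (ho2.inter ho3), ?_, ?_, ?_⟩, ⟨⟨hw, ?_⟩, hP.1, hP.2.1⟩, hi⟩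
  · rintro w ⟨⟨h1, h2⟩, h3, h4⟩
    have h5 := (hs i).proj w h1
    refine ⟨?_, ?_, h2⟩
    · rw [h5]; exact h3
    · rw [h5]; exact h4
  · rintro w ⟨⟨h1, h2⟩, -⟩
    exact (hs i).proj w h1
  · intro b
    exact ((hs i).holo b).mono fun w hw => hw.1.1
  · show ‖s i (proj G.y P) sg - 1‖ < 1 / 2
    rw [hi]
    exact hP.2.2

theorem maux_min {L : ℕ} (t : Fin L → ℝ) (ht : ∀ l, 0 < t l) : ∃ t0 : ℝ, 0 < t0 ∧ ∀ l, t0 ≤ t l := by
  classical
  have hne : (insert 1 (Finset.univ.image t)).Nonempty := Finset.insert_nonempty _ _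
  refine ⟨(insert 1 (Finset.univ.image t)).min' hne, ?_, fun l => Finset.min'_le _ _
    (Finset.mem_insert_of_mem (Finset.mem_image_of_mem _ (Finset.mem_univ l)))⟩
  have := Finset.min'_mem _ hne
  rcases Finset.mem_insert.1 this with h | h
  · rw [h]; exact one_pos
  · obtain ⟨l, -, hl⟩ := Finset.mem_image.1 h
    rw [← hl]; exact ht l

theorem maux_point1 [IsDomain B] {G : Germ n d B} {sg h z : B} {ρ r δ s A ε : ℝ} {N L : ℕ} {a : Fin n → ℕ}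
    (hn : 1 ≤ n) (ha : ∀ j, 1 ≤ a j) (hN : 1 ≤ N) (hA0 : 0 ≤ A)
    (hA : ((∑ j, a j : ℕ) : ℝ) ≤ A * N) (hδ : 0 ≤ δ) (hs0 : 0 ≤ s) (hr : 0 < r) (hε : 0 < ε)
    (hh : ∀ χ ∈ VV G sg (fun w => eval w G.D) ρ, χ h ≠ 0) {P : Pt B}
    (hP : P ∈ VV G sg (fun w => eval w G.D) ρ) (hPr : nq (proj G.y P) < r ^ 2) {F : Fin L → B}
    (hF : ∀ l, VanAt G a N P (F l)) {M : ℝ≥0∞} (hM : M ≠ ⊤) :
    ∃ η₀ : ℝ, 0 < η₀ ∧ ∀ η, 0 < η → η ≤ η₀ → ∀ Z : Pt B → ℂ,
      HolV G (VV G sg (fun w => eval w G.D) ρ) Z →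
      sumI G (VV G sg (fun w => eval w G.D) ρ) (fun χ => ENNReal.ofReal
          (‖(cutf (nq (proj G.y χ) / r ^ 2) : ℂ) * χ z - Z χ‖ ^ 2 *
            wt G F h η A r δ s χ)) ≤ M → ‖Z P‖ ≤ ε := by
  obtain ⟨Ω, S, hS, hq, hSP⟩ := maux_sec G hP
  set q := proj G.y P with hqdef
  have hbd : ∀ l, ∃ C t : ℝ, 0 < C ∧ 0 < t ∧ ∀ w : Fin n → ℂ, (∀ j, ‖w j - q j‖ < t) → w ∈ Ω ∧
      ‖S w (F l)‖ ^ 2 ≤ C * ∑ j, ‖w j - q j‖ ^ (2 * (N : ℝ) / a j) := fun l =>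
    VanAt.bound ha hN hS hq (by rw [hSP]; exact hF l)
  choose C₁ t₁ hC₁ ht₁ hb using hbd
  obtain ⟨t₀, ht₀, ht₀'⟩ := maux_min t₁ ht₁
  obtain ⟨t₂, ht₂, ht₂'⟩ := Metric.isOpen_iff.1 (hS.isOpen.inter
    (isOpen_lt maux_cont_nq (continuous_const (y := r ^ 2)))) q ⟨hq, hPr⟩
  obtain ⟨Ch, hCh⟩ := G.bdd h (r ^ 2)
  set Ch' := max Ch 1 with hCh'
  have hCh0 : 0 < Ch' := one_pos.trans_le (le_max_right _ _)
  set κ : ℝ := (2 * r ^ 2) ^ (-δ) * Ch' ^ (-(2 * s)) with hκ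
  have hκ0 : 0 < κ := by positivity
  set C : ℝ := 1 + ∑ l, C₁ l with hC
  have hC0 : 0 < C := by
    have := Finset.sum_nonneg fun l (_ : l ∈ Finset.univ) => (hC₁ l).le
    positivity
  set t := min t₀ t₂ with ht
  have ht0 : 0 < t := lt_min ht₀ ht₂
  have hgood : ∀ w : Fin n → ℂ, (∀ j, ‖w j - q j‖ < t) → w ∈ Ω ∧ nq w < r ^ 2 ∧
      ∑ l, ‖S w (F l)‖ ^ 2 ≤ C * ∑ j, ‖w j - q j‖ ^ (2 * (N : ℝ) / a j) := by
    intro w hw
    have h1 : w ∈ Metric.ball q t₂ := by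
      rw [Metric.mem_ball, dist_pi_lt_iff ht₂]
      intro j
      rw [dist_eq_norm]
      exact (hw j).trans_le (min_le_right _ _)
    have h2 := ht₂' h1
    refine ⟨h2.1, h2.2, ?_⟩
    have h3 : 0 ≤ ∑ j, ‖w j - q j‖ ^ (2 * (N : ℝ) / a j) :=
      Finset.sum_nonneg fun _ _ => by positivity
    calc ∑ l, ‖S w (F l)‖ ^ 2 ≤ ∑ l, C₁ l * ∑ j, ‖w j - q j‖ ^ (2 * (N : ℝ) / a j) := by
          refine Finset.sum_le_sum fun l _ => ?_
          exact (hb l w fun j => (hw j).trans_le ((min_le_left _ _).trans (ht₀' l))).2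
      _ = (∑ l, C₁ l) * ∑ j, ‖w j - q j‖ ^ (2 * (N : ℝ) / a j) := by rw [Finset.sum_mul]
      _ ≤ _ := by
          rw [hC]
          nlinarith
  obtain ⟨η₀, hη₀, hpole⟩ := pole hn a ha hN hA hC0 ht0 hε
    (M := ENNReal.ofReal κ⁻¹ * M) (ENNReal.mul_ne_top ENNReal.ofReal_ne_top hM)
  refine ⟨η₀, hη₀, fun η hη hηle Z hZ hI => ?_⟩
  have hsub : {w : Fin n → ℂ | ∀ j, ‖w j - q j‖ < t} ⊆ Ω := fun w hw => (hgood w hw).1
  have hfin := hpole η hη hηle q (fun w => Z (S w)) ((hZ Ω S hS).mono hsub) ?_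
  · simpa [hSP] using hfin
  have hmeas : MeasurableSet {w : Fin n → ℂ | ∀ j, ‖w j - q j‖ < t} := by
    rw [Set.ofPred_forall]
    refine MeasurableSet.iInter fun j => ?_
    exact (isOpen_lt (by fun_prop) continuous_const).measurableSet
  calc ∫⁻ w in {w : Fin n → ℂ | ∀ j, ‖w j - q j‖ < t}, ENNReal.ofReal
          (‖Z (S w)‖ ^ 2 * (C * ∑ j, ‖w j - q j‖ ^ (2 * (N : ℝ) / a j) + η) ^ (-A))
      ≤ ∫⁻ w in {w : Fin n → ℂ | ∀ j, ‖w j - q j‖ < t}, ENNReal.ofReal κ⁻¹ *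
          ∑' χ : {χ : Pt B // χ ∈ VV G sg (fun w => eval w G.D) ρ ∧ proj G.y χ = w},
          ENNReal.ofReal (‖(cutf (nq (proj G.y (χ : Pt B)) / r ^ 2) : ℂ) * (χ : Pt B) z - Z χ‖ ^ 2 *
            wt G F h η A r δ s χ) := by
        refine setLIntegral_mono' hmeas fun w hw => ?_
        obtain ⟨h1, h2, h3⟩ := hgood w hw
        have hle := ENNReal.le_tsum (f := fun χ : {χ : Pt B //
          χ ∈ VV G sg (fun w => eval w G.D) ρ ∧ proj G.y χ = w} =>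
          ENNReal.ofReal (‖(cutf (nq (proj G.y (χ : Pt B)) / r ^ 2) : ℂ) * (χ : Pt B) z - Z χ‖ ^ 2 *
            wt G F h η A r δ s χ)) ⟨S w, hS.mem w h1, hS.proj w h1⟩
        refine le_trans ?_ (mul_le_mul_right hle _)
        rw [← ENNReal.ofReal_mul (by positivity)]
        apply ENNReal.ofReal_le_ofReal
        have hpr := hS.proj w h1
        have hcut : cutf (nq (proj G.y (S w)) / r ^ 2) = 0 := by
          rw [hpr]
          unfold cutf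
          apply Real.smoothTransition.zero_of_nonpos
          have : nq w / r ^ 2 < 1 := by
            rw [div_lt_one (by positivity)]; exact h2
          linarith
        simp only [hcut, Complex.ofReal_zero, zero_mul, zero_sub, norm_neg]
        have hne : S w h ≠ 0 := hh _ (hS.mem w h1)
        have hh1 : ‖S w h‖ ≤ Ch' := (hCh _ (by rw [hpr]; exact h2.le)).trans (le_max_left _ _)
        have hsum0 : 0 ≤ ∑ l, ‖S w (F l)‖ ^ 2 := Finset.sum_nonneg fun _ _ => by positivity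
        have k1 : (C * ∑ j, ‖w j - q j‖ ^ (2 * (N : ℝ) / a j) + η) ^ (-A) ≤
            (∑ l, ‖S w (F l)‖ ^ 2 + η) ^ (-A) :=
          Real.rpow_le_rpow_of_nonpos (by positivity) (by linarith) (by linarith)
        have k2 : (2 * r ^ 2) ^ (-δ) ≤ (nq (proj G.y (S w)) + r ^ 2) ^ (-δ) := by
          rw [hpr]
          have := nq_nonneg w
          exact Real.rpow_le_rpow_of_nonpos (by positivity) (by linarith) (by linarith)
        have k3 : Ch' ^ (-(2 * s)) ≤ ‖S w h‖ ^ (-(2 * s)) :=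
          Real.rpow_le_rpow_of_nonpos (norm_pos_iff.2 hne) hh1 (by linarith)
        have k4 : (C * ∑ j, ‖w j - q j‖ ^ (2 * (N : ℝ) / a j) + η) ^ (-A) * κ ≤
            wt G F h η A r δ s (S w) := by
          unfold wt
          rw [hκ, ← mul_assoc]
          have k6 : 0 ≤ (∑ l, ‖S w (F l)‖ ^ 2 + η) ^ (-A) := Real.rpow_nonneg (by positivity) _
          have k7 : 0 ≤ (nq (proj G.y (S w)) + r ^ 2) ^ (-δ) := by
            have := nq_nonneg (proj G.y (S w))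
            positivity
          exact mul_le_mul (mul_le_mul k1 k2 (by positivity) k6) k3 (by positivity)
            (mul_nonneg k6 k7)
        have k5 : 0 ≤ (C * ∑ j, ‖w j - q j‖ ^ (2 * (N : ℝ) / a j) + η) ^ (-A) := by
          apply Real.rpow_nonneg
          have h3 : 0 ≤ ∑ j, ‖w j - q j‖ ^ (2 * (N : ℝ) / a j) :=
            Finset.sum_nonneg fun _ _ => by positivity
          positivity
        calc ‖Z (S w)‖ ^ 2 * (C * ∑ j, ‖w j - q j‖ ^ (2 * (N : ℝ) / a j) + η) ^ (-A)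
            = κ⁻¹ * (‖Z (S w)‖ ^ 2 *
              ((C * ∑ j, ‖w j - q j‖ ^ (2 * (N : ℝ) / a j) + η) ^ (-A) * κ)) := by
              field_simp
          _ ≤ _ := by gcongr
    _ ≤ ∫⁻ w : Fin n → ℂ, ENNReal.ofReal κ⁻¹ *
          ∑' χ : {χ : Pt B // χ ∈ VV G sg (fun w => eval w G.D) ρ ∧ proj G.y χ = w},
          ENNReal.ofReal (‖(cutf (nq (proj G.y (χ : Pt B)) / r ^ 2) : ℂ) * (χ : Pt B) z - Z χ‖ ^ 2 *
            wt G F h η A r δ s χ) := setLIntegral_le_lintegral _ _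
    _ = ENNReal.ofReal κ⁻¹ * sumI G (VV G sg (fun w => eval w G.D) ρ) (fun χ => ENNReal.ofReal
          (‖(cutf (nq (proj G.y χ) / r ^ 2) : ℂ) * χ z - Z χ‖ ^ 2 *
            wt G F h η A r δ s χ)) := by
        rw [lintegral_const_mul' _ _ ENNReal.ofReal_ne_top]
        rfl
    _ ≤ _ := by gcongr

end Pool.Agent.Odp3
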