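import Pool.Agent.Odp3.Main.MAux2
import Pool.Agent.Odp3.Alg.Sep

/-!
# Auxiliary lemmas for Theorem M: limits, integrals, the estimate for a fixed index
-/

open scoped ContDiff Topology ENNReal NNReal WithZero
open Set MeasureTheory Filter MvPolynomial Pool.Agent.ODP Pool.Agent.ToricKRF
  Pool.Agent.ToricKRF.G Pool.Agent.KRFS Pool.Agent.KRFQ

namespace Pool.Agent.Odp3

variable {n d : ℕ} {B : Type} [CommRing B] [Algebra ℂ B]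

/-- the vectors of an affine family lying in an ideal form a closed set -/
theorem maux_closed (J : Ideal B) {k : ℕ} (g : Fin k → B)
    (z : B) (h : ∀ ε : ℝ, 0 < ε → ∃ c : Fin k → ℂ,
      (z + ∑ i, algebraMap ℂ B (c i) * g i ∈ J) ∧ ∀ i, ‖c i‖ ≤ ε) : z ∈ J := by
  let φ : (ℂ × (Fin k → ℂ)) →ₗ[ℂ] B :=
    (LinearMap.toSpanSingleton ℂ B z).coprod (Fintype.linearCombination ℂ g)
  let W : Submodule ℂ (ℂ × (Fin k → ℂ)) := (J.restrictScalars ℂ).comap φ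
  have hW : IsClosed (W : Set (ℂ × (Fin k → ℂ))) := W.closed_of_finiteDimensional
  have hmem : ∀ u : Fin k → ℂ, ((1 : ℂ), u) ∈ W ↔ z + ∑ i, algebraMap ℂ B (u i) * g i ∈ J := by
    intro u
    change φ ((1 : ℂ), u) ∈ J ↔ _
    simp [φ, Fintype.linearCombination_apply, Algebra.smul_def]
  have hcl : ((1 : ℂ), (0 : Fin k → ℂ)) ∈ closure (W : Set (ℂ × (Fin k → ℂ))) := by
    rw [Metric.mem_closure_iff]
    intro ε hε
    obtain ⟨v', h1, h2⟩ := h (ε / 2) (by positivity)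
    refine ⟨((1 : ℂ), v'), (hmem v').2 h1, ?_⟩
    rw [Prod.dist_eq, dist_self, max_lt_iff]
    refine ⟨hε, ?_⟩
    rw [dist_pi_lt_iff hε]
    intro k
    rw [dist_comm, dist_eq_norm]
    have h5 : ‖v' k - 0‖ < ε := by
      rw [sub_zero]
      exact (h2 k).trans_lt (by linarith)
    exact h5
  rw [hW.closure_eq] at hcl
  have h3 := (hmem 0).1 hcl
  simpa using h3

theorem maux_le_one [IsDomain B] {G : Germ n d B} {x : Pt B} (p : Pts G x) {a : Fin n → ℕ} (ha : ∀ j, 1 ≤ a j) :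
    JI p a 1 ≤ JI p (one n) 1 := by
  intro b hb
  rw [mem_JI] at hb ⊢
  obtain ⟨F, hF, hF'⟩ := hb
  refine ⟨F, hF.mono fun ν hν i => ?_, hF'⟩
  have hD : eval (proj G.y (p.p i ν)) G.D ≠ 0 := by rw [p.proj_p]; exact p.D_ne ν
  rw [vanAt_one (one n) (fun _ => le_rfl) hD]
  exact (vanAt_one a ha hD _).1 (hν i)

theorem maux_limit {d : ℕ} (u : ℕ → Fin d → ℂ) (R : ℝ)
    (hu : ∀ᶠ ν in (hyperfilter ℕ : Filter ℕ), ∀ k, ‖u ν k‖ ≤ R) :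
    ∃ v' : Fin d → ℂ, ∀ k, Tendsto (fun ν => u ν k) (hyperfilter ℕ : Filter ℕ) (𝓝 (v' k)) := by
  have h1 : ∀ k, ∃ v', Tendsto (fun ν => u ν k) (hyperfilter ℕ : Filter ℕ) (𝓝 v') := by
    intro k
    have hc := isCompact_closedBall (0 : ℂ) R
    obtain ⟨v', -, hv'⟩ := hc.ultrafilter_le_nhds ((hyperfilter ℕ).map (fun ν => u ν k)) (by
      rw [Filter.le_principal_iff]
      exact hu.mono fun ν h => mem_closedBall_zero_iff.2 (h k))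
    exact ⟨v', hv'⟩
  choose v' hv' using h1
  exact ⟨v', hv'⟩

/-- the lower bound for the weight -/
theorem maux_wt_low (G : Germ n d B) {L : ℕ} (f : Fin L → B) {A δ : ℝ} (hA : 0 ≤ A)
    (hδ : 0 ≤ δ) : ∃ κ : ℝ, 0 < κ ∧ ∀ (h : B) (s r η : ℝ) (F : Fin L → B) (χ : Pt B), 0 < r →
      r ≤ 1 → 0 < η → η ≤ 1 → nq (proj G.y χ) ≤ 1 → (∀ l, ‖χ (F l) - χ (f l)‖ ≤ 1) →
      κ * ‖χ h‖ ^ (-(2 * s)) ≤ wt G F h η A r δ s χ := by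
  choose C hC using fun l => G.bdd (f l) 1
  refine ⟨(∑ l, (|C l| + 1) ^ 2 + 1) ^ (-A) * 2 ^ (-δ), by positivity, ?_⟩
  intro h s r η F χ hr hr1 hη hη1 hq hF
  have h1 : ∑ l, ‖χ (F l)‖ ^ 2 ≤ ∑ l, (|C l| + 1) ^ 2 := by
    refine Finset.sum_le_sum fun l _ => ?_
    have h2 : ‖χ (F l)‖ ≤ |C l| + 1 := by
      calc ‖χ (F l)‖ = ‖(χ (F l) - χ (f l)) + χ (f l)‖ := by rw [sub_add_cancel]
        _ ≤ ‖χ (F l) - χ (f l)‖ + ‖χ (f l)‖ := norm_add_le _ _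
        _ ≤ 1 + |C l| := add_le_add (hF l) ((hC l χ hq).trans (le_abs_self _))
        _ = _ := add_comm _ _
    gcongr
  unfold wt
  have h3 : (∑ l, (|C l| + 1) ^ 2 + 1) ^ (-A) ≤ (∑ l, ‖χ (F l)‖ ^ 2 + η) ^ (-A) :=
    Real.rpow_le_rpow_of_nonpos (by positivity) (by linarith) (by linarith)
  have h4 : (2:ℝ) ^ (-δ) ≤ (nq (proj G.y χ) + r ^ 2) ^ (-δ) := by
    have := nq_nonneg (proj G.y χ)
    refine Real.rpow_le_rpow_of_nonpos (by positivity) ?_ (by linarith)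
    nlinarith
  have h5 : 0 ≤ (∑ l, ‖χ (F l)‖ ^ 2 + η) ^ (-A) := Real.rpow_nonneg (by positivity) _
  have h6 : 0 ≤ (nq (proj G.y χ) + r ^ 2) ^ (-δ) := by
    have := nq_nonneg (proj G.y χ)
    positivity
  exact mul_le_mul (mul_le_mul h3 h4 (by positivity) h5) le_rfl (by positivity)
    (mul_nonneg h5 h6)

/-- the perturbed generators are comparable outside of a ball -/
theorem maux_close {G : Germ n d B} {N L : ℕ} (hn : 1 ≤ n) (hN : 1 ≤ N) {f : Fin L → B}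
    (hmono : ∀ m : Fin n → ℕ, ∑ j, m j = N → ∃ l, f l = ∏ j, G.y j ^ m j) {r : ℝ}
    (hr : 0 < r) : ∃ ε₁ : ℝ, 0 < ε₁ ∧ ε₁ ≤ 1 ∧ ∀ (χ : Pt B) (F : Fin L → B),
      r ^ 2 ≤ nq (proj G.y χ) → (∀ l, ‖χ (F l) - χ (f l)‖ ≤ ε₁) →
      (∑ l, ‖χ (f l)‖ ^ 2) / 4 ≤ ∑ l, ‖χ (F l)‖ ^ 2 := by
  have hn0 : (0:ℝ) < n := by exact_mod_cast hn
  have hL0 : (0:ℝ) ≤ L := Nat.cast_nonneg _
  set ε₁ : ℝ := min 1 ((r ^ 2) ^ N / ((n : ℝ) ^ N * (4 * (L + 1)))) with hε₁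
  have hpos : 0 < ε₁ := lt_min one_pos (by positivity)
  have h1 : ε₁ ≤ 1 := min_le_left _ _
  refine ⟨ε₁, hpos, h1, fun χ F hq hF => ?_⟩
  have h2 : ε₁ * ((n : ℝ) ^ N * (4 * (L + 1))) ≤ (r ^ 2) ^ N := by
    rw [← le_div_iff₀ (by positivity)]
    exact min_le_right _ _
  have h3 := maux_low hN hmono χ
  have h4 : (r ^ 2) ^ N ≤ nq (proj G.y χ) ^ N := by gcongr
  have h5 : (n : ℝ) ^ N * (ε₁ * (4 * (L + 1))) ≤ (n : ℝ) ^ N * ∑ l, ‖χ (f l)‖ ^ 2 := by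
    calc (n : ℝ) ^ N * (ε₁ * (4 * (L + 1))) = ε₁ * ((n : ℝ) ^ N * (4 * (L + 1))) := by ring
      _ ≤ _ := h2.trans (h4.trans h3)
  have h6 : ε₁ * (4 * (L + 1)) ≤ ∑ l, ‖χ (f l)‖ ^ 2 := le_of_mul_le_mul_left h5 (by positivity)
  have h7 : ∑ l, ‖χ (f l)‖ ^ 2 ≤ ∑ l, (2 * ‖χ (F l)‖ ^ 2 + 2 * ε₁ ^ 2) := by
    refine Finset.sum_le_sum fun l _ => ?_
    have h8 : ‖χ (f l)‖ ≤ ‖χ (F l)‖ + ε₁ := by
      calc ‖χ (f l)‖ = ‖χ (F l) - (χ (F l) - χ (f l))‖ := by rw [sub_sub_cancel]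
        _ ≤ ‖χ (F l)‖ + ‖χ (F l) - χ (f l)‖ := norm_sub_le _ _
        _ ≤ _ := by gcongr; exact hF l
    have h9 : ‖χ (f l)‖ ^ 2 ≤ (‖χ (F l)‖ + ε₁) ^ 2 := by gcongr
    nlinarith [sq_nonneg (‖χ (F l)‖ - ε₁)]
  rw [Finset.sum_add_distrib, ← Finset.mul_sum, Finset.sum_const, Finset.card_univ,
    Fintype.card_fin, nsmul_eq_mul] at h7
  have h10 : (L : ℝ) * (2 * ε₁ ^ 2) ≤ (ε₁ * (4 * (L + 1))) / 2 := by
    have h11 : ε₁ ^ 2 ≤ ε₁ := by nlinarith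
    have h12 : (L : ℝ) * (2 * ε₁ ^ 2) ≤ L * (2 * ε₁) := by gcongr
    linarith
  linarith

/-- restriction of the base -/
theorem maux_restrict (G : Germ n d B) (S : Set (Pt B)) (t : ℝ) (F : Pt B → ℝ≥0∞) :
    sumI G {χ | χ ∈ S ∧ nq (proj G.y χ) ≤ t} F =
      ∫⁻ w : Fin n → ℂ, {w : Fin n → ℂ | nq w ≤ t}.indicator
        (fun w => ∑' χ : {χ : Pt B // χ ∈ S ∧ proj G.y χ = w}, F χ) w := by
  classical
  refine lintegral_congr fun w => ?_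
  have h1 : (∑' χ : {χ : Pt B // χ ∈ {χ | χ ∈ S ∧ nq (proj G.y χ) ≤ t} ∧ proj G.y χ = w}, F χ) =
      ∑' χ : Pt B, ({χ : Pt B | χ ∈ {χ | χ ∈ S ∧ nq (proj G.y χ) ≤ t} ∧
        proj G.y χ = w}).indicator F χ :=
    tsum_subtype {χ : Pt B | χ ∈ {χ | χ ∈ S ∧ nq (proj G.y χ) ≤ t} ∧ proj G.y χ = w} F
  have h2 : (∑' χ : {χ : Pt B // χ ∈ S ∧ proj G.y χ = w}, F χ) =
      ∑' χ : Pt B, ({χ : Pt B | χ ∈ S ∧ proj G.y χ = w}).indicator F χ :=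
    tsum_subtype {χ : Pt B | χ ∈ S ∧ proj G.y χ = w} F
  by_cases hw : nq w ≤ t
  · rw [indicator_of_mem (s := {w : Fin n → ℂ | nq w ≤ t}) hw, h1, h2]
    refine tsum_congr fun χ => ?_
    congr 1
    ext χ
    constructor
    · rintro ⟨⟨h3, -⟩, h4⟩
      exact ⟨h3, h4⟩
    · rintro ⟨h3, h4⟩
      exact ⟨⟨h3, by rw [h4]; exact hw⟩, h4⟩
  · rw [indicator_of_notMem (s := {w : Fin n → ℂ | nq w ≤ t}) hw, h1]
    refine ENNReal.tsum_eq_zero.2 fun χ => indicator_of_notMem ?_ _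
    rintro ⟨⟨-, h3⟩, h4⟩
    rw [h4] at h3
    exact hw h3

end Pool.Agent.Odp3
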