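import Pool.Agent.Odp3.Main.Defs
import Pool.Agent.Odp3.Alg.Canon
import Pool.Agent.Odp3.Pt.Bdd
import Pool.Agent.Odp3.Alg.Cf

/-!
# The measure near `x`: `IsMeas` from the `r`-canonical generator and klt
-/

open scoped ContDiff Topology ENNReal NNReal WithZero
open Set MeasureTheory Filter MvPolynomial Pool.Agent.ODP

namespace Pool.Agent.Odp3

theorem setup_UU_mono {n d : ℕ} {B : Type} [CommRing B] [Algebra ℂ B] (G : Germ n d B) (sg : B)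
    {ρ ρ' : ℝ} (h0 : 0 ≤ ρ) (h : ρ ≤ ρ') : UU G sg ρ ⊆ UU G sg ρ' := fun χ hχ =>
  ⟨hχ.1.trans_le (by gcongr), hχ.2⟩

theorem setup_one {n d : ℕ} {B : Type} [CommRing B] [Algebra ℂ B] {G : Germ n d B}
    {x : Pt B} {sg : B} {m : ℕ} (hm : 1 ≤ m) (hs : IsSep G x m sg) {r : ℕ} (hr : 0 < r) {h : B}
    (hnz : ∀ χ : Pt B, eval (proj G.y χ) G.D ≠ 0 → χ h ≠ 0) (u : B)
    (hc : ∃ t b : B, x t ≠ 0 ∧ t * u ^ r * h = aeval G.y G.D ^ r * b) :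
    ∃ (ρ : ℝ) (C : ℝ≥0), 0 < ρ ∧ ∀ χ ∈ UU G sg ρ, eval (proj G.y χ) G.D ≠ 0 →
      ‖χ u‖ₑ ^ 2 ≤ C * ‖eval (proj G.y χ) G.D‖ₑ ^ 2 * ‖χ h‖ₑ ^ (-(2 * (1 / (r : ℝ)))) := by
  obtain ⟨t, b, ht, htb⟩ := hc
  have ht0 : 0 < ‖x t‖ := norm_pos_iff.2 ht
  obtain ⟨ρ, hρ, hU⟩ := hs.tends hm t (half_pos ht0)
  obtain ⟨C, hC⟩ := G.bdd b (ρ ^ 2)
  have hr0 : (0 : ℝ) < r := by exact_mod_cast hr
  set C' : ℝ := |C| / (‖x t‖ / 2) with hC'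
  have hC'0 : 0 ≤ C' := by positivity
  refine ⟨ρ, (C' ^ (2 / (r : ℝ))).toNNReal, hρ, fun χ hχ hD => ?_⟩
  have h1 := congrArg χ htb
  rw [map_mul, map_mul, map_mul, map_pow, map_pow, bdd_aeval] at h1
  have h2 : ‖x t‖ / 2 ≤ ‖χ t‖ := by
    have h3 := hU χ hχ
    have h4 : ‖x t‖ ≤ ‖χ t‖ + ‖χ t - x t‖ := by
      calc ‖x t‖ = ‖χ t - (χ t - x t)‖ := by simp
        _ ≤ _ := norm_sub_le _ _
    linarith
  have h5 : ‖χ b‖ ≤ |C| := (hC χ hχ.1.le).trans (le_abs_self _)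
  have h6 := congrArg norm h1
  rw [norm_mul, norm_mul, norm_mul, norm_pow, norm_pow] at h6
  set v := ‖χ u‖ with hv
  set δ := ‖eval (proj G.y χ) G.D‖ with hδ
  set η := ‖χ h‖ with hη
  have hη0 : 0 < η := norm_pos_iff.2 (hnz χ hD)
  have hv0 : 0 ≤ v := norm_nonneg _
  have hδ0 : 0 ≤ δ := norm_nonneg _
  have h7 : v ^ r * η ≤ C' * δ ^ r := by
    have h8 : ‖x t‖ / 2 * (v ^ r * η) ≤ δ ^ r * |C| := by
      calc ‖x t‖ / 2 * (v ^ r * η) ≤ ‖χ t‖ * (v ^ r * η) := by gcongr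
        _ = δ ^ r * ‖χ b‖ := by rw [← h6]; ring
        _ ≤ _ := by gcongr
    rw [hC', div_mul_eq_mul_div, le_div_iff₀ (half_pos ht0)]
    linarith
  have h9 : v ^ r ≤ C' * δ ^ r * η⁻¹ := by
    rw [← div_eq_mul_inv, le_div_iff₀ hη0]
    exact h7
  have h10 : v ^ 2 ≤ C' ^ (2 / (r : ℝ)) * δ ^ 2 * η ^ (-(2 * (1 / (r : ℝ)))) := by
    have h11 : ∀ a : ℝ, 0 ≤ a → (a ^ r) ^ (2 / (r : ℝ)) = a ^ 2 := by
      intro a ha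
      rw [← Real.rpow_natCast a r, ← Real.rpow_mul ha, mul_div_cancel₀ _ hr0.ne']
      exact Real.rpow_two a
    have h12 := Real.rpow_le_rpow (by positivity) h9 (by positivity : 0 ≤ 2 / (r : ℝ))
    rw [h11 v hv0, Real.mul_rpow (by positivity) (by positivity),
      Real.mul_rpow hC'0 (by positivity), h11 δ hδ0, Real.inv_rpow hη0.le,
      ← Real.rpow_neg hη0.le] at h12
    rwa [show (2 * (1 / (r : ℝ))) = 2 / (r : ℝ) by ring]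
  calc ‖χ u‖ₑ ^ 2 = ENNReal.ofReal (v ^ 2) := by
        rw [ENNReal.ofReal_pow hv0, ofReal_norm]
    _ ≤ ENNReal.ofReal (C' ^ (2 / (r : ℝ)) * δ ^ 2 * η ^ (-(2 * (1 / (r : ℝ))))) :=
        ENNReal.ofReal_le_ofReal h10
    _ = _ := by
        rw [ENNReal.ofReal_mul (by positivity), ENNReal.ofReal_mul (by positivity),
          ENNReal.ofReal_pow hδ0, hδ, ofReal_norm, ← ENNReal.ofReal_rpow_of_pos hη0, hη,
          ofReal_norm]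
        rfl

theorem Germ.isNoetherianRing {n d : ℕ} {B : Type} [CommRing B] [Algebra ℂ B]
    (G : Germ n d B) : IsNoetherianRing B := by
  let : Algebra (MvPolynomial (Fin n) ℂ) B :=
    (MvPolynomial.aeval G.y : MvPolynomial (Fin n) ℂ →ₐ[ℂ] B).toRingHom.toAlgebra
  have hfin : Module.Finite (MvPolynomial (Fin n) ℂ) B := G.fin
  exact IsNoetherianRing.of_finite (MvPolynomial (Fin n) ℂ) B

/-- The elements `u` such that `u / D` is in the codifferent. -/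
def Germ.omIdeal {n d : ℕ} {B : Type} [CommRing B] [Algebra ℂ B] (G : Germ n d B) : Ideal B where
  carrier := {u | G.IsOm u}
  add_mem' := by
    intro u v hu hv b
    obtain ⟨p, hp⟩ := hu b
    obtain ⟨q, hq⟩ := hv b
    exact ⟨p + q, by rw [add_mul, G.tr_add, hp, hq, mul_add]⟩
  zero_mem' := fun b => ⟨0, by rw [zero_mul, G.tr_zero, mul_zero]⟩
  smul_mem' := by
    intro c u hu b
    obtain ⟨p, hp⟩ := hu (c * b)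
    exact ⟨p, by rw [← hp, smul_eq_mul]; congr 1; ring⟩

theorem setup_om {n d : ℕ} {B : Type} [CommRing B] [Algebra ℂ B] {G : Germ n d B}
    {x : Pt B} {sg : B} {m : ℕ} (hm : 1 ≤ m) (hs : IsSep G x m sg) {r : ℕ} (hr : 0 < r) {h : B}
    (hnz : ∀ χ : Pt B, eval (proj G.y χ) G.D ≠ 0 → χ h ≠ 0)
    (hc : ∀ u, G.IsOm u → ∃ t b : B, x t ≠ 0 ∧ t * u ^ r * h = aeval G.y G.D ^ r * b) :
    ∃ ρ : ℝ, 0 < ρ ∧ ∀ u, G.IsOm u → ∃ C : ℝ≥0, ∀ χ ∈ UU G sg ρ,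
      eval (proj G.y χ) G.D ≠ 0 →
      ‖χ u‖ₑ ^ 2 ≤ C * ‖eval (proj G.y χ) G.D‖ₑ ^ 2 * ‖χ h‖ₑ ^ (-(2 * (1 / (r : ℝ)))) := by
  classical
  have hN := G.isNoetherianRing
  obtain ⟨S, hS⟩ := (isNoetherianRing_iff_ideal_fg B).1 hN G.omIdeal
  have hmem : ∀ g ∈ S, G.IsOm g := fun g hg => by
    have : g ∈ G.omIdeal := hS ▸ Ideal.subset_span hg
    exact this
  have key : ∀ g : S, ∃ (ρ : ℝ) (C : ℝ≥0), 0 < ρ ∧ ∀ χ ∈ UU G sg ρ,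
      eval (proj G.y χ) G.D ≠ 0 → ‖χ (g : B)‖ₑ ^ 2 ≤
        C * ‖eval (proj G.y χ) G.D‖ₑ ^ 2 * ‖χ h‖ₑ ^ (-(2 * (1 / (r : ℝ)))) := fun g =>
    setup_one hm hs hr hnz g (hc g (hmem g g.2))
  choose ρ C hρ hC using key
  obtain ⟨ρ₀, hρ₀, hle⟩ : ∃ ρ₀ : ℝ, 0 < ρ₀ ∧ ∀ i, ρ₀ ≤ ρ i := by
    rcases isEmpty_or_nonempty S with he | he
    · exact ⟨1, one_pos, fun i => (he.false i).elim⟩
    · obtain ⟨j, hj⟩ := Finite.exists_min ρ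
      exact ⟨ρ j, hρ j, hj⟩
  refine ⟨ρ₀, hρ₀, fun u hu => ?_⟩
  have hu' : u ∈ Ideal.span (S : Set B) := by
    rw [hS]
    exact hu
  refine Submodule.span_induction (p := fun u _ => ∃ C : ℝ≥0, ∀ χ ∈ UU G sg ρ₀,
      eval (proj G.y χ) G.D ≠ 0 →
      ‖χ u‖ₑ ^ 2 ≤ C * ‖eval (proj G.y χ) G.D‖ₑ ^ 2 * ‖χ h‖ₑ ^ (-(2 * (1 / (r : ℝ)))))
    ?_ ?_ ?_ ?_ hu'
  · intro g hg
    exact ⟨C ⟨g, hg⟩, fun χ hχ hD => hC ⟨g, hg⟩ χ (setup_UU_mono G sg hρ₀.le (hle _) hχ) hD⟩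
  · exact ⟨0, fun χ _ _ => by simp⟩
  · rintro a b - - ⟨Ca, ha⟩ ⟨Cb, hb⟩
    refine ⟨2 * (Ca + Cb), fun χ hχ hD => ?_⟩
    have h1 : ‖χ (a + b)‖ₑ ^ 2 ≤ 2 * (‖χ a‖ₑ ^ 2 + ‖χ b‖ₑ ^ 2) := by
      rw [map_add]
      calc ‖χ a + χ b‖ₑ ^ 2 ≤ (‖χ a‖ₑ + ‖χ b‖ₑ) ^ 2 := by
            gcongr
            exact enorm_add_le _ _
        _ ≤ 2 * (‖χ a‖ₑ ^ 2 + ‖χ b‖ₑ ^ 2) := by
            have h3 : (‖χ a‖₊ + ‖χ b‖₊) ^ 2 ≤ 2 * (‖χ a‖₊ ^ 2 + ‖χ b‖₊ ^ 2) := add_sq_le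
            rw [enorm_eq_nnnorm, enorm_eq_nnnorm]
            exact_mod_cast h3
    refine h1.trans ?_
    calc 2 * (‖χ a‖ₑ ^ 2 + ‖χ b‖ₑ ^ 2)
        ≤ 2 * (Ca * ‖eval (proj G.y χ) G.D‖ₑ ^ 2 * ‖χ h‖ₑ ^ (-(2 * (1 / (r : ℝ)))) +
          Cb * ‖eval (proj G.y χ) G.D‖ₑ ^ 2 * ‖χ h‖ₑ ^ (-(2 * (1 / (r : ℝ))))) := by
          gcongr
          · exact ha χ hχ hD
          · exact hb χ hχ hD
      _ = _ := by
          push_cast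
          ring
  · rintro b a - ⟨Ca, ha⟩
    obtain ⟨Cb, hCb⟩ := G.bdd b (ρ₀ ^ 2)
    refine ⟨(|Cb|.toNNReal) ^ 2 * Ca, fun χ hχ hD => ?_⟩
    have h1 : ‖χ b‖ₑ ≤ (|Cb|.toNNReal : ℝ≥0∞) := by
      rw [← ofReal_norm]
      exact ENNReal.ofReal_le_ofReal ((hCb χ hχ.1.le).trans (le_abs_self _))
    rw [smul_eq_mul, map_mul, enorm_mul, mul_pow]
    calc ‖χ b‖ₑ ^ 2 * ‖χ a‖ₑ ^ 2 ≤ (|Cb|.toNNReal : ℝ≥0∞) ^ 2 *
          (Ca * ‖eval (proj G.y χ) G.D‖ₑ ^ 2 * ‖χ h‖ₑ ^ (-(2 * (1 / (r : ℝ))))) := by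
          gcongr
          exact ha χ hχ hD
      _ = _ := by
          push_cast
          ring

theorem setup_sumI_const {n d : ℕ} {B : Type} [CommRing B] [Algebra ℂ B] (G : Germ n d B)
    (S : Set (Pt B)) {C : ℝ≥0∞} (hC : C ≠ ⊤) (F : Pt B → ℝ≥0∞) :
    sumI G S (fun χ => C * F χ) = C * sumI G S F := by
  simp only [sumI]
  simp only [ENNReal.tsum_mul_left]
  rw [lintegral_const_mul' _ _ hC]

theorem setup_sumI_mono {n d : ℕ} {B : Type} [CommRing B] [Algebra ℂ B] (G : Germ n d B)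
    (S : Set (Pt B)) {F F' : Pt B → ℝ≥0∞} (h : ∀ χ ∈ S, F χ ≤ F' χ) :
    sumI G S F ≤ sumI G S F' :=
  lintegral_mono fun _ => ENNReal.tsum_le_tsum fun χ => h χ χ.2.1

theorem setup_fin {n d : ℕ} {B : Type} [CommRing B] [Algebra ℂ B] {G : Germ n d B} {sg : B}
    {h : B} {s κ ρ : ℝ} (hs : 0 ≤ s) (hκ : 0 < κ)
    (hf : sumI G (UU G sg ρ) (fun χ => ‖χ h‖ₑ ^ (-(2 * (s + κ)))) ≠ ⊤) :
    sumI G (UU G sg ρ) (fun χ => ‖χ h‖ₑ ^ (-(2 * s))) ≠ ⊤ := by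
  obtain ⟨C, hC⟩ := G.bdd h (ρ ^ 2)
  set C' : ℝ≥0∞ := ENNReal.ofReal (|C| + 1) ^ (2 * κ) with hC'
  have hC't : C' ≠ ⊤ := ENNReal.rpow_ne_top_of_nonneg (by positivity) ENNReal.ofReal_ne_top
  have hC'0 : C' ≠ 0 := by
    rw [hC', Ne, ENNReal.rpow_eq_zero_iff]
    rintro (⟨h1, _⟩ | ⟨h1, _⟩)
    · rw [ENNReal.ofReal_eq_zero] at h1
      linarith [abs_nonneg C]
    · exact ENNReal.ofReal_ne_top h1
  refine ne_top_of_le_ne_top (ENNReal.mul_ne_top hC't hf) ?_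
  rw [← setup_sumI_const G _ hC't]
  refine setup_sumI_mono G _ fun χ hχ => ?_
  rcases eq_or_ne (‖χ h‖ₑ) 0 with h0 | h0
  · rw [h0, ENNReal.zero_rpow_of_neg (by linarith : -(2 * (s + κ)) < 0), ENNReal.mul_top hC'0]
    exact le_top
  · have hle : ‖χ h‖ₑ ≤ ENNReal.ofReal (|C| + 1) := by
      rw [← ofReal_norm]
      exact ENNReal.ofReal_le_ofReal (((hC χ hχ.1.le).trans (le_abs_self _)).trans (by linarith))
    have h1 : ‖χ h‖ₑ ^ (-(2 * s)) = ‖χ h‖ₑ ^ (2 * κ) * ‖χ h‖ₑ ^ (-(2 * (s + κ))) := by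
      rw [← ENNReal.rpow_add _ _ h0 enorm_ne_top]
      congr 1
      ring
    rw [h1]
    gcongr
    exact ENNReal.rpow_le_rpow hle (by positivity)

/-- The working hypotheses on the measure. -/
theorem exists_isMeas {n d : ℕ} {B K : Type} [CommRing B] [IsDomain B] [IsIntegrallyClosed B]
    [Algebra ℂ B] [Field K] [Algebra B K] [IsFractionRing B K] [Algebra ℂ K]
    [IsScalarTower ℂ B K] (G : Germ n d B) (x : Pt B) {sg : B} {m : ℕ} (hm : 1 ≤ m)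
    (hsg : IsSep G x m sg) {r : ℕ} (hr : 0 < r) {h : B}
    (hnz : ∀ χ : Pt B, eval (proj G.y χ) G.D ≠ 0 → χ h ≠ 0)
    (hK : IsRCanonicalAt ℂ (RingHom.ker x) (fun i => algebraMap B K (G.y i)) r
      (algebraMap B K h)) {κ : ℝ} (hκ : 0 < κ)
    (hklt : NearInt G.y h (1 / (r : ℝ) + κ) x fun _ => 1) :
    ∃ ρ₁ : ℝ, IsMeas G x h (1 / (r : ℝ)) sg ρ₁ ∧
      sumI G (UU G sg ρ₁) (fun χ => ‖χ h‖ₑ ^ (-(2 * (1 / (r : ℝ) + κ)))) ≠ ⊤ := by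
  obtain ⟨ρ, hρ, hC⟩ := setup_om hm hsg hr hnz (fun u hu => G.canon x r h hK u hu)
  obtain ⟨ρ', hρ', hf⟩ := (hsg.near hm h (1 / (r : ℝ) + κ) fun _ => 1).1 hklt
  simp only [one_mul] at hf
  have hpos : 0 < min ρ ρ' := lt_min hρ hρ'
  have hf' : sumI G (UU G sg (min ρ ρ')) (fun χ => ‖χ h‖ₑ ^ (-(2 * (1 / (r : ℝ) + κ)))) ≠ ⊤ :=
    ne_top_of_le_ne_top hf (sumI_mono G (setup_UU_mono G sg hpos.le (min_le_right _ _)) _)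
  refine ⟨min ρ ρ', ⟨inferInstance, hpos, by positivity, hnz, fun u hu => ?_,
    setup_fin (by positivity) hκ hf'⟩, hf'⟩
  obtain ⟨C, hC'⟩ := hC u hu
  exact ⟨C, fun χ hχ => hC' χ (setup_UU_mono G sg hpos.le (min_le_left _ _) hχ)⟩

end Pool.Agent.Odp3
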